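import Pool.Agent.X149.LowDegreeSets

set_option autoImplicit false

/-!
# The restricted density polynomial Hales-Jewett problem: the degree threshold

A family of subsets of `[N]^h` which contains the support of a nonzero function of degree less than
`N / (h + 1)`, with values in any field, is good; in characteristic two the bound `N / (h + 1)` is
sharp whenever it is an integer.
-/

namespace Pool.Agent.Results.MP_90b327_co.DegreeThreshold

open Finset Pool.Agent.X149

/-- the cartesian power `γ^h` of a set `γ ⊆ [N]` -/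
def box {h N : ℕ} (γ : Set (Fin N)) : Set (Fin h → Fin N) := {x | ∀ i, x i ∈ γ}

/-- The family `S` of subsets of `[N]^h` is good: there are `A ∈ S` and a nonempty `γ ⊆ [N]` with
`A ∩ γ^h = ∅` and `A ∪ γ^h ∈ S`. -/
def Good {h N : ℕ} (S : Set (Set (Fin h → Fin N))) : Prop :=
  ∃ A ∈ S, ∃ γ : Set (Fin N), γ.Nonempty ∧ A ∩ box γ = ∅ ∧ A ∪ box γ ∈ S

/-- The function `f` on the subsets of `X`, with values in the field `K`, has degree at most `d`:
it is a linear combination of functions `g` for which `g A` depends only on `A ∩ T`, `T` a set of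
at most `d` elements. -/
def DegreeLE (K : Type) [Field K] {X : Type} (d : ℕ) (f : Set X → K) : Prop :=
  f ∈ Submodule.span K {g : Set X → K | ∃ T : Finset X, T.card ≤ d ∧
    ∀ A B : Set X, A ∩ (T : Set X) = B ∩ (T : Set X) → g A = g B}

theorem box_empty {h N : ℕ} (hh : 1 ≤ h) : box (h := h) (∅ : Set (Fin N)) = ∅ := by
  ext x
  simp only [box, Set.mem_ofPred_eq, Set.mem_empty_iff_false, iff_false]
  intro hx
  exact hx ⟨0, by omega⟩

theorem main (K : Type) [Field K] (h N d : ℕ) (hh : 1 ≤ h) (f : Set (Fin h → Fin N) → K)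
    (hf : DegreeLE K d f) (A₀ : Set (Fin h → Fin N)) (h0 : f A₀ ≠ 0) :
    ∃ A : Set (Fin h → Fin N), A.ncard ≤ d ∧ f A ≠ 0 ∧
      2 ^ N ≤ 2 ^ ((h + 1) * d) *
        Set.ncard {γ : Set (Fin N) | A ∩ box γ = ∅ ∧ f (A ∪ box γ) ≠ 0} := by
  classical
  obtain ⟨A, hA, hfA⟩ := LDS.exists_small hf h0
  refine ⟨A, hA, hfA, ?_⟩
  -- the coordinates which are not first coordinates of elements of `A`
  let i0 : Fin h := ⟨0, by omega⟩
  let Z : Finset (Fin N) := Finset.univ.filter (fun v => ∀ p ∈ A, p i0 ≠ v)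
  have hZ : N ≤ Z.card + d := by
    have h1 : (Finset.univ : Finset (Fin N)) ⊆ Z ∪ A.toFinset.image (fun p => p i0) := by
      intro v _
      by_cases hv : ∀ p ∈ A, p i0 ≠ v
      · exact Finset.mem_union_left _ (by simpa [Z] using hv)
      · push Not at hv
        obtain ⟨p, hp, hpv⟩ := hv
        exact Finset.mem_union_right _ (Finset.mem_image.2 ⟨p, by simpa using hp, hpv⟩)
    have h2 := (Finset.card_le_card h1).trans (Finset.card_union_le _ _)
    have h3 : (A.toFinset.image (fun p => p i0)).card ≤ A.ncard := by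
      rw [Set.ncard_eq_toFinset_card']
      exact Finset.card_image_le
    rw [Finset.card_univ, Fintype.card_fin] at h2
    omega
  let φ : (Fin N → Bool) → (Fin h → Fin N) → Bool := fun y p =>
    LDS.ind A p || decide (∀ i, y (p i) = true)
  have hφ : ∀ p : Fin h → Fin N, ∃ T : Finset (Fin N), T.card ≤ h ∧
      LD.Dep T (fun y => φ y p) := by
    intro p
    refine ⟨Finset.univ.image p, (Finset.card_image_le).trans (by simp), ?_⟩
    intro x y hxy
    have : (∀ i, x (p i) = true) ↔ (∀ i, y (p i) = true) :=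
      forall_congr' (fun i => by
        rw [hxy (p i) (Finset.mem_image.2 ⟨i, Finset.mem_univ _, rfl⟩)])
    simp only [φ, this]
  have hset : ∀ y : Fin N → Bool, LDS.setOf' (φ y) = A ∪ box (LDS.setOf' y) := by
    intro y
    ext p
    simp [φ, LDS.setOf', LDS.ind, box]
  have hdeg := LD.deg_comp (LDS.deg_of hf) φ hφ
  have hz0 : LDS.setOf' (fun _ : Fin N => false) = ∅ := by
    ext v; simp [LDS.setOf']
  have h1 := LD.sup_card Z (h * d) (fun y => f (LDS.setOf' (φ y))) hdeg (fun _ => false) (by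
    simp only [hset, hz0, box_empty hh, Set.union_empty]
    exact hfA)
  have h2 : (LD.sup (fun y => f (LDS.setOf' (φ y))) Z (fun _ => false)).card ≤
      Set.ncard {γ : Set (Fin N) | A ∩ box γ = ∅ ∧ f (A ∪ box γ) ≠ 0} := by
    rw [← Set.ncard_coe_finset]
    refine Set.ncard_le_ncard_of_injOn (fun y => LDS.setOf' y) ?_ ?_ (Set.toFinite _)
    · intro y hy
      rw [Finset.mem_coe, LD.mem_sup] at hy
      refine ⟨?_, by simpa only [hset] using hy.2⟩
      ext p
      simp only [Set.mem_inter_iff, Set.mem_empty_iff_false, iff_false, not_and]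
      intro hp hb
      have h3 : y (p i0) = true := hb i0
      have h4 : p i0 ∉ Z := by
        simp only [Z, Finset.mem_filter, Finset.mem_univ, true_and]
        intro hcon
        exact hcon p hp rfl
      rw [hy.1 _ h4] at h3
      exact Bool.noConfusion h3
    · intro y _ z _ hyz
      have hyz' : LDS.setOf' y = LDS.setOf' z := hyz
      rw [← LDS.ind_setOf y, ← LDS.ind_setOf z, hyz']
  calc 2 ^ N ≤ 2 ^ (Z.card + d) := Nat.pow_le_pow_right (by norm_num) hZ
    _ = 2 ^ d * 2 ^ Z.card := by ring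
    _ ≤ 2 ^ d * (2 ^ (h * d) *
        (LD.sup (fun y => f (LDS.setOf' (φ y))) Z (fun _ => false)).card) :=
      Nat.mul_le_mul_left _ h1
    _ = 2 ^ ((h + 1) * d) * (LD.sup (fun y => f (LDS.setOf' (φ y))) Z (fun _ => false)).card := by
      ring
    _ ≤ _ := Nat.mul_le_mul_left _ h2

theorem good_of_count (K : Type) [Field K] (h N d : ℕ) (hh : 1 ≤ h)
    (f : Set (Fin h → Fin N) → K) (hf : DegreeLE K d f) (hne : f ≠ 0) (hd : (h + 1) * d < N)
    (S : Set (Set (Fin h → Fin N))) (hS : ∀ A, f A ≠ 0 → A ∈ S) : Good S := by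
  classical
  obtain ⟨A₀, h0⟩ := Function.ne_iff.1 hne
  obtain ⟨A, -, hfA, hcount⟩ := main K h N d hh f hf A₀ h0
  have h2 : 2 ≤ Set.ncard {γ : Set (Fin N) | A ∩ box γ = ∅ ∧ f (A ∪ box γ) ≠ 0} := by
    have h3 : 2 ^ ((h + 1) * d) * 2 ≤ 2 ^ N := by
      rw [← pow_succ]
      exact Nat.pow_le_pow_right (by norm_num) hd
    exact Nat.le_of_mul_le_mul_left (h3.trans hcount) (by positivity)
  obtain ⟨γ, hγ, hγne⟩ := Set.exists_ne_of_one_lt_ncard (by omega :
    1 < Set.ncard {γ : Set (Fin N) | A ∩ box γ = ∅ ∧ f (A ∪ box γ) ≠ 0}) ∅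
  exact ⟨A, hS A hfA, γ, Set.nonempty_iff_ne_empty.2 hγne, hγ.1, hS _ hγ.2⟩

/-- Families given by equations. -/
theorem equations (K : Type) [Field K] [Fintype K] (h N s : ℕ) (hh : 1 ≤ h) (D : Fin s → ℕ)
    (P : Fin s → Set (Fin h → Fin N) → K) (hP : ∀ i, DegreeLE K (D i) (P i))
    (hne : ∃ A, ∀ i, P i A = 0) (hd : (h + 1) * ((Fintype.card K - 1) * ∑ i, D i) < N)
    (S : Set (Set (Fin h → Fin N))) (hS : ∀ A, (∀ i, P i A = 0) → A ∈ S) : Good S := by
  classical
  have hq : 1 < Fintype.card K := Fintype.one_lt_card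
  let f : Set (Fin h → Fin N) → K := fun A => ∏ i, (1 - P i A ^ (Fintype.card K - 1))
  have hfz : ∀ A, f A ≠ 0 → ∀ i, P i A = 0 := by
    intro A hA i
    by_contra hne
    apply hA
    refine Finset.prod_eq_zero (Finset.mem_univ i) ?_
    rw [FiniteField.pow_card_sub_one_eq_one _ hne, sub_self]
  have hf1 : ∀ A, (∀ i, P i A = 0) → f A = 1 := by
    intro A hA
    refine Finset.prod_eq_one (fun i _ => ?_)
    rw [hA i, zero_pow (by omega), sub_zero]
  have hdeg : DegreeLE K ((Fintype.card K - 1) * ∑ i, D i) f := by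
    have h1 : LD.Deg K (∑ i, (Fintype.card K - 1) * D i)
        (fun x => ∏ i, (1 - P i (LDS.setOf' x) ^ (Fintype.card K - 1))) := by
      refine LD.deg_prod Finset.univ (fun i => (Fintype.card K - 1) * D i)
        (fun i x => 1 - P i (LDS.setOf' x) ^ (Fintype.card K - 1)) (fun i _ => ?_)
      exact LD.deg_sub (LD.deg_const _ _) (LD.deg_pow (LDS.deg_of (hP i)) _)
    rw [Finset.mul_sum]
    have h2 := LDS.of_deg h1
    have h3 : (fun A : Set (Fin h → Fin N) =>
        ∏ i, (1 - P i (LDS.setOf' (LDS.ind A)) ^ (Fintype.card K - 1))) = f := by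
      funext A
      simp only [LDS.setOf_ind, f]
    rw [← h3]
    exact h2
  obtain ⟨A, hA⟩ := hne
  refine good_of_count K h N _ hh f hdeg ?_ hd S (fun B hB => hS B (hfz B hB))
  intro h0
  have := hf1 A hA
  rw [h0] at this
  exact zero_ne_one this

/-- a tuple with a prescribed set of entries -/
theorem exists_tuple {β : Type} (h : ℕ) (I : Finset β) (hne : I.Nonempty) (hc : I.card ≤ h) :
    ∃ g : Fin h → β, ∀ v, (∃ i, g i = v) ↔ v ∈ I := by
  classical
  obtain ⟨x0, hx0⟩ := hne
  refine ⟨fun i => if hi : (i : ℕ) < I.card then (I.equivFin.symm ⟨i, hi⟩ : β) else x0, ?_⟩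
  intro v
  constructor
  · rintro ⟨i, rfl⟩
    dsimp only
    split_ifs with hi
    · exact Subtype.property _
    · exact hx0
  · intro hv
    refine ⟨⟨I.equivFin ⟨v, hv⟩, lt_of_lt_of_le (Fin.is_lt _) hc⟩, ?_⟩
    dsimp only
    rw [dif_pos (Fin.is_lt _)]
    simp

theorem sharp (K : Type) [Field K] [CharP K 2] (h m : ℕ) (hh : 1 ≤ h) :
    ∃ f : Set (Fin h → Fin (m * (h + 1))) → K, DegreeLE K m f ∧ f ≠ 0 ∧
      ¬ Good {A | f A ≠ 0} := by
  classical
  let e : Fin m × Fin (h + 1) ≃ Fin (m * (h + 1)) := finProdFinEquiv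
  obtain ⟨𝓘, h𝓘⟩ : ∃ 𝓘 : Finset (Finset (Fin (h + 1))),
      ∀ I, I ∈ 𝓘 ↔ I.Nonempty ∧ I ≠ Finset.univ :=
    ⟨Finset.univ.filter (fun I => I.Nonempty ∧ I ≠ Finset.univ), fun I => by simp⟩
  have hcard : ∀ I ∈ 𝓘, I.card ≤ h := by
    intro I hI
    have h1 : I ⊂ Finset.univ :=
      ⟨Finset.subset_univ _, fun h =>
        ((h𝓘 I).1 hI).2 (Finset.Subset.antisymm (Finset.subset_univ _) h)⟩
    have h2 := Finset.card_lt_card h1
    rw [Finset.card_univ, Fintype.card_fin] at h2
    omega
  have hg : ∀ I : Finset (Fin (h + 1)), ∃ g : Fin h → Fin (h + 1),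
      I ∈ 𝓘 → ∀ v, (∃ i, g i = v) ↔ v ∈ I := by
    intro I
    by_cases hI : I ∈ 𝓘
    · obtain ⟨g, hg⟩ := exists_tuple h I ((h𝓘 I).1 hI).1 (hcard I hI)
      exact ⟨g, fun _ => hg⟩
    · exact ⟨fun _ => 0, fun h => absurd h hI⟩
  choose g hg using hg
  let t : Fin m → Finset (Fin (h + 1)) → Fin h → Fin (m * (h + 1)) := fun j I i => e (j, g I i)
  let cnt : Fin m → Set (Fin h → Fin (m * (h + 1))) → ℕ := fun j A =>
    (𝓘.filter (fun I => t j I ∈ A)).card
  let f : Set (Fin h → Fin (m * (h + 1))) → K := fun A => ∏ j, (cnt j A : K)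
  have hodd : ∀ A, f A ≠ 0 ↔ ∀ j, Odd (cnt j A) := by
    intro A
    rw [Finset.prod_ne_zero_iff]
    refine ⟨fun h j => ?_, fun h j _ => ?_⟩
    · have := h j (Finset.mem_univ j)
      rw [Ne, CharP.cast_eq_zero_iff K 2] at this
      rw [← Nat.not_even_iff_odd, even_iff_two_dvd]
      exact this
    · rw [Ne, CharP.cast_eq_zero_iff K 2, ← even_iff_two_dvd, Nat.not_even_iff_odd]
      exact h j
  have h0univ : ({0} : Finset (Fin (h + 1))) ≠ Finset.univ := by
    intro hcon
    have := congrArg Finset.card hcon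
    rw [Finset.card_singleton, Finset.card_univ, Fintype.card_fin] at this
    omega
  have h0mem : ({0} : Finset (Fin (h + 1))) ∈ 𝓘 :=
    (h𝓘 _).2 ⟨Finset.singleton_nonempty _, h0univ⟩
  refine ⟨f, ?_, ?_, ?_⟩
  · -- degree
    have h1 : LD.Deg K (∑ _j : Fin m, 1)
        (fun x : (Fin h → Fin (m * (h + 1))) → Bool => ∏ j : Fin m,
          ∑ I ∈ 𝓘, (if x (t j I) = true then (1 : K) else 0)) := by
      refine LD.deg_prod Finset.univ (fun _ => 1)
        (fun j x => ∑ I ∈ 𝓘, (if x (t j I) = true then (1 : K) else 0)) (fun j _ => ?_)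
      refine LD.deg_sum 𝓘 (fun I x => if x (t j I) = true then (1 : K) else 0) (fun I _ => ?_)
      refine LD.deg_of_dep (T := {t j I}) (by simp) ?_
      intro x y hxy
      simp only [hxy (t j I) (Finset.mem_singleton_self _)]
    have h2 := LDS.of_deg h1
    have h3 : (∑ _j : Fin m, 1) = m := by simp
    rw [h3] at h2
    have h4 : (fun A : Set (Fin h → Fin (m * (h + 1))) => ∏ j : Fin m,
        ∑ I ∈ 𝓘, (if LDS.ind A (t j I) = true then (1 : K) else 0)) = f := by
      funext A
      refine Finset.prod_congr rfl (fun j _ => ?_)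
      simp only [cnt]
      rw [Finset.card_filter, Nat.cast_sum]
      refine Finset.sum_congr rfl (fun I _ => ?_)
      by_cases hI : t j I ∈ A <;> simp [LDS.ind, hI]
    rw [← h4]
    exact h2
  · -- nonzero
    intro hz
    have h1 : f {p | ∃ j, p = t j {0}} ≠ 0 := by
      rw [hodd]
      intro j
      have h2 : cnt j {p | ∃ j, p = t j {0}} = 1 := by
        refine Finset.card_eq_one.2 ⟨{0}, ?_⟩
        ext I
        simp only [Finset.mem_filter, Finset.mem_singleton]
        constructor
        · rintro ⟨hI, j', hj'⟩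
          have h3 : ∀ x ∈ I, x = 0 := by
            intro x hx
            obtain ⟨i, hi⟩ := (hg I hI x).2 hx
            have h4 : e (j, g I i) = e (j', g {0} i) := congrFun hj' i
            have h5 := e.injective h4
            have h6 : g {0} i ∈ ({0} : Finset (Fin (h + 1))) := (hg {0} h0mem _).1 ⟨i, rfl⟩
            rw [Finset.mem_singleton] at h6
            rw [← hi]
            exact (congrArg Prod.snd h5).trans h6
          exact Finset.eq_singleton_iff_nonempty_unique_mem.2
            ⟨((h𝓘 I).1 hI).1, h3⟩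
        · rintro rfl
          exact ⟨h0mem, j, rfl⟩
      rw [h2]
      exact odd_one
    exact h1 (by rw [hz]; rfl)
  · -- not good
    rintro ⟨A, hA, γ, ⟨v, hv⟩, hdis, hU⟩
    have hA' := (hodd A).1 hA
    have hU' := (hodd (A ∪ box γ)).1 hU
    obtain ⟨⟨j, i⟩, rfl⟩ := e.surjective v
    let I0 : Finset (Fin (h + 1)) := Finset.univ.filter (fun i => e (j, i) ∈ γ)
    have hi0 : i ∈ I0 := Finset.mem_filter.2 ⟨Finset.mem_univ _, hv⟩
    have hbox : ∀ I ∈ 𝓘, (t j I ∈ (box γ : Set (Fin h → Fin (m * (h + 1)))) ↔ I ⊆ I0) := by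
      intro I hI
      constructor
      · intro hb x hx
        obtain ⟨k, hk⟩ := (hg I hI x).2 hx
        have h1 : e (j, g I k) ∈ γ := hb k
        rw [hk] at h1
        exact Finset.mem_filter.2 ⟨Finset.mem_univ _, h1⟩
      · intro hs k
        exact (Finset.mem_filter.1 (hs ((hg I hI _).1 ⟨k, rfl⟩))).2
    by_cases hu : I0 = Finset.univ
    · -- nothing of `A` in the block
      have h1 : cnt j A = 0 := by
        simp only [cnt]
        rw [Finset.card_eq_zero, Finset.filter_eq_empty_iff]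
        intro I hI hIA
        have h2 : t j I ∈ A ∩ (box γ : Set (Fin h → Fin (m * (h + 1)))) :=
          ⟨hIA, (hbox I hI).2 (by rw [hu]; exact Finset.subset_univ _)⟩
        rw [hdis] at h2
        exact h2
      have h2 := hA' j
      rw [h1] at h2
      exact absurd h2 (by decide)
    · have h1 : cnt j (A ∪ box γ) = cnt j A + (2 ^ I0.card - 1) := by
        have h2 : cnt j (A ∪ box γ) =
            (𝓘.filter (fun I => t j I ∈ A) ∪ I0.powerset.erase ∅).card := by
          refine congrArg Finset.card ?_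
          ext I
          simp only [Finset.mem_filter, Finset.mem_union, Finset.mem_erase,
            Finset.mem_powerset, Set.mem_union]
          constructor
          · rintro ⟨hI, hIA | hIb⟩
            · exact Or.inl ⟨hI, hIA⟩
            · exact Or.inr ⟨Finset.nonempty_iff_ne_empty.1 ((h𝓘 I).1 hI).1,
                (hbox I hI).1 hIb⟩
          · rintro (⟨hI, hIA⟩ | ⟨hne, hs⟩)
            · exact ⟨hI, Or.inl hIA⟩
            · have hI : I ∈ 𝓘 := by
                refine (h𝓘 I).2 ⟨Finset.nonempty_iff_ne_empty.2 hne, fun hIu => hu ?_⟩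
                rw [hIu] at hs
                exact Finset.Subset.antisymm (Finset.subset_univ _) hs
              exact ⟨hI, Or.inr ((hbox I hI).2 hs)⟩
        have h3 : Disjoint (𝓘.filter (fun I => t j I ∈ A)) (I0.powerset.erase ∅) := by
          rw [Finset.disjoint_left]
          intro I hI hI'
          rw [Finset.mem_filter] at hI
          rw [Finset.mem_erase, Finset.mem_powerset] at hI'
          have h4 : t j I ∈ A ∩ (box γ : Set (Fin h → Fin (m * (h + 1)))) :=
            ⟨hI.2, (hbox I hI.1).2 hI'.2⟩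
          rw [hdis] at h4
          exact h4
        rw [h2, Finset.card_union_of_disjoint h3, Finset.card_erase_of_mem (by simp),
          Finset.card_powerset]
      have h2 : Even (2 ^ I0.card) := by
        rw [Nat.even_pow]
        exact ⟨even_two, (Finset.card_pos.2 ⟨i, hi0⟩).ne'⟩
      have h3 : 1 ≤ 2 ^ I0.card := Nat.one_le_two_pow
      have h4 := hA' j
      have h5 := hU' j
      rw [h1] at h5
      obtain ⟨a, ha⟩ := h2
      obtain ⟨b, hb⟩ := h4
      obtain ⟨c, hc⟩ := h5
      omega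

/-- **The degree threshold.** Let `h ≥ 1`.
(1) Let `f ≠ 0` be a function of degree at most `d` on the subsets of `[N]^h`, with values in
any field. Then `f A ≠ 0` for at least a proportion `2 ^ (-d)` of the sets `A`, and there is a set
`A` of at most `d` elements with `f A ≠ 0` for which at least `2 ^ (N - (h + 1) d)` sets
`γ ⊆ [N]` (one of them is the empty set) satisfy `A ∩ γ^h = ∅` and `f (A ∪ γ^h) ≠ 0`.
(2) So every family which contains the support of a nonzero function of degree at most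
`d < N / (h + 1)` is good.
(3) In particular, for a finite field `K` with `q` elements, a family is good if it contains all
solutions of a solvable system of equations `P i A = 0` whose degrees `D i` satisfy
`(q - 1) ∑ D i < N / (h + 1)`.
(4) The bound in (2) is sharp in characteristic two: for `N = m (h + 1)` there is a nonzero
function of degree at most `m` whose support is not good. -/
theorem result :
    (∀ (K : Type) [Field K] (h N d : ℕ), 1 ≤ h →
      ∀ f : Set (Fin h → Fin N) → K, DegreeLE K d f → f ≠ 0 →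
        2 ^ (N ^ h) ≤ 2 ^ d * Set.ncard {A : Set (Fin h → Fin N) | f A ≠ 0} ∧
        ∃ A : Set (Fin h → Fin N), A.ncard ≤ d ∧ f A ≠ 0 ∧
          2 ^ N ≤ 2 ^ ((h + 1) * d) *
            Set.ncard {γ : Set (Fin N) | A ∩ box γ = ∅ ∧ f (A ∪ box γ) ≠ 0}) ∧
    (∀ (K : Type) [Field K] (h N d : ℕ), 1 ≤ h → (h + 1) * d < N →
      ∀ f : Set (Fin h → Fin N) → K, DegreeLE K d f → f ≠ 0 →
        ∀ S : Set (Set (Fin h → Fin N)), (∀ A, f A ≠ 0 → A ∈ S) → Good S) ∧
    (∀ (K : Type) [Field K] [Fintype K] (h N s : ℕ), 1 ≤ h → ∀ D : Fin s → ℕ,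
      (h + 1) * ((Fintype.card K - 1) * ∑ i, D i) < N →
      ∀ P : Fin s → Set (Fin h → Fin N) → K, (∀ i, DegreeLE K (D i) (P i)) →
        (∃ A, ∀ i, P i A = 0) →
        ∀ S : Set (Set (Fin h → Fin N)), (∀ A, (∀ i, P i A = 0) → A ∈ S) → Good S) ∧
    (∀ (K : Type) [Field K] [CharP K 2] (h m : ℕ), 1 ≤ h →
      ∃ f : Set (Fin h → Fin (m * (h + 1))) → K, DegreeLE K m f ∧ f ≠ 0 ∧
        ¬ Good {A | f A ≠ 0}) := by
  refine ⟨?_, ?_, ?_, ?_⟩
  · intro K _ h N d hh f hf hne
    obtain ⟨A₀, h0⟩ := Function.ne_iff.1 hne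
    refine ⟨?_, main K h N d hh f hf A₀ h0⟩
    have h1 := LDS.support_big hf (A₀ := A₀) h0
    have h2 : Nat.card (Fin h → Fin N) = N ^ h := by
      simp [Nat.card_eq_fintype_card]
    rwa [h2] at h1
  · intro K _ h N d hh hd f hf hne S hS
    exact good_of_count K h N d hh f hf hne hd S hS
  · intro K _ _ h N s hh D hd P hP hne S hS
    exact equations K h N s hh D P hP hne hd S hS
  · intro K _ _ h m hh
    exact sharp K h m hh

end Pool.Agent.Results.MP_90b327_co.DegreeThreshold
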