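import Mathlib
import Pool.Agent.X79.HJ.Fin

set_option autoImplicit false

namespace Pool.Agent.Results.MP_90b327_co.LowSensitivity

open Finset

/-- `cube d γ` is `γ^d`, the set of all `d`-tuples with entries in `γ`. -/
def cube {N : ℕ} (d : ℕ) (γ : Finset (Fin N)) : Finset (Fin d → Fin N) :=
  Fintype.piFinset (fun _ : Fin d => γ)

/-- A family `S` of subsets of `[N]^d` is good if there are `A ∈ S` and a nonempty `γ ⊆ [N]` with
`A ∩ γ^d = ∅` and `A ∪ γ^d ∈ S`. -/
def Good {N d : ℕ} (S : Finset (Finset (Fin d → Fin N))) : Prop :=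
  ∃ A ∈ S, ∃ γ : Finset (Fin N), γ.Nonempty ∧ Disjoint A (cube d γ) ∧ A ∪ cube d γ ∈ S

/-- The cells of `[N]^d` with exactly `i` different coordinates. -/
def cells (N d i : ℕ) : Finset (Fin d → Fin N) :=
  univ.filter (fun x : Fin d → Fin N => (univ.image x).card = i)

open Classical in
/-- The influence of `x` on `f`: the number of sets `A` not containing `x` for which `f A` and
`f (A ∪ {x})` are different. -/
noncomputable def influence {E τ : Type} [Fintype E] [DecidableEq E] (f : Finset E → τ) (x : E) :
    ℕ := (univ.filter (fun A : Finset E => x ∉ A ∧ f A ≠ f (insert x A))).card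

/-- The polynomial of degree at most `D` with coefficients `c` and values in the abelian group `G`:
`A ↦ ∑ c T`, the sum over all subsets `T ⊆ A` with at most `D` elements. -/
def poly {E G : Type} [AddCommGroup G] (D : ℕ) (c : Finset E → G) (A : Finset E) : G :=
  ∑ T ∈ A.powerset.filter (fun T => T.card ≤ D), c T

/-- The difference of `h` in direction `e`: `A ↦ h (A ∪ {e}) - h (A \ {e})`. -/
def diff {E : Type} [DecidableEq E] (e : E) (h : Finset E → ℝ) (A : Finset E) : ℝ :=
  h (insert e A) - h (A.erase e)

/-- All differences of order `k` of `h` have constant sign: for all `e₁, …, e_k` the function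
`diff e₁ (… (diff e_k h))` is nowhere negative or nowhere positive (which of the two may depend on
`e₁, …, e_k`). -/
def ConstSign {E : Type} [DecidableEq E] : ℕ → (Finset E → ℝ) → Prop
  | 0, h => (∀ A, 0 ≤ h A) ∨ (∀ A, h A ≤ 0)
  | k + 1, h => ∀ e, ConstSign k (diff e h)

/-- De Morgan formulas; their leaves are constants and literals. -/
inductive Formula (E : Type) where
  | const (b : Prop) : Formula E
  | pos (e : E) : Formula E
  | neg (e : E) : Formula E
  | and (φ ψ : Formula E) : Formula E
  | or (φ ψ : Formula E) : Formula E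

/-- The truth value of a formula at the set `A`: `pos e` says `e ∈ A` and `neg e` says `e ∉ A`. -/
def Formula.eval {E : Type} (A : Finset E) : Formula E → Prop
  | .const b => b
  | .pos e => e ∈ A
  | .neg e => e ∉ A
  | .and φ ψ => φ.eval A ∧ ψ.eval A
  | .or φ ψ => φ.eval A ∨ ψ.eval A

/-- The number of leaves of a formula which are literals with an element of `K`. -/
def Formula.leaves {E : Type} [DecidableEq E] (K : Finset E) : Formula E → ℕ
  | .const _ => 0
  | .pos e => if e ∈ K then 1 else 0
  | .neg e => if e ∈ K then 1 else 0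
  | .and φ ψ => φ.leaves K + ψ.leaves K
  | .or φ ψ => φ.leaves K + ψ.leaves K

lemma reg_of_constSign {E : Type} [DecidableEq E] (k : ℕ) : ∀ h : Finset E → ℝ, ConstSign k h →
    Pool.Agent.TH484.PH.Reg k h := by
  induction k with
  | zero => exact fun h hh => hh
  | succ k ih => exact fun h hh e => ih _ (hh e)

lemma khr {E : Type} [Fintype E] [DecidableEq E] (K : Finset E) (φ : Formula E) :
    Pool.Agent.X79.HJ.Khr K (φ.leaves K) (fun A => φ.eval A) := by
  induction φ with
  | const b => exact Pool.Agent.X79.HJ.Khr.const K b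
  | pos e =>
    simp only [Formula.leaves, Formula.eval]
    split_ifs with h
    · exact Pool.Agent.X79.HJ.Khr.lit
    · exact Pool.Agent.X79.HJ.Khr.lit_out h
  | neg e =>
    simp only [Formula.leaves, Formula.eval]
    split_ifs with h
    · exact Pool.Agent.X79.HJ.Khr.lit.not
    · exact (Pool.Agent.X79.HJ.Khr.lit_out h).not
  | and φ ψ h1 h2 => exact h1.and h2
  | or φ ψ h1 h2 => exact h1.or h2

/-- The restricted density polynomial Hales-Jewett statement holds, for every `d ≥ 1` and all
positive densities, for the families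
`F = {A : R (f A) (0 < h₁ A, …, 0 < h_s A) (φ₁ A, …, φ_t A) (q A)}`, `R` any condition, where
* `f` is a function with values in any type for which the average influence of the cells with `i`
  different coordinates is small, for each `i`;
* the `h_j` are real functions, each with all differences of some order between `1` and `k` of
  constant sign, and their number is at most a small multiple of `N^(1/2^k)`;
* the `φ_j` are De Morgan formulas, each with at most `η N^(2i) / t²` leaves which are literals with
  a cell with `i` different coordinates, for each `i` (there are about `N^i` such cells);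
* `q` is a polynomial of degree at most `D` with values in a finite abelian group;
and also if a small proportion of all sets is removed from such a family. -/
theorem result : ∀ d : ℕ, 1 ≤ d → ∀ D k : ℕ, ∀ (G : Type) [AddCommGroup G] [Finite G], ∀ δ : ℝ,
    0 < δ → ∃ η : ℝ, 0 < η ∧ ∃ N₀ : ℕ, ∀ N : ℕ, N₀ ≤ N →
      ∀ (τ : Type) (f : Finset (Fin d → Fin N) → τ)
        (s : ℕ) (h : Fin s → Finset (Fin d → Fin N) → ℝ)
        (t : ℕ) (φ : Fin t → Formula (Fin d → Fin N))
        (c : Finset (Fin d → Fin N) → G)
        (R : τ → (Fin s → Prop) → (Fin t → Prop) → G → Prop)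
        (F S : Finset (Finset (Fin d → Fin N))),
        (∀ i, 1 ≤ i → i ≤ d →
          ∑ x ∈ cells N d i, (influence f x : ℝ) ≤ η * N ^ i * (2 : ℝ) ^ (N ^ d)) →
        (s : ℝ) ^ (2 ^ k) ≤ η * N → (∀ j, ∃ l, 1 ≤ l ∧ l ≤ k ∧ ConstSign l (h j)) →
        (∀ j i, 1 ≤ i → i ≤ d →
          (t : ℝ) ^ 2 * ((φ j).leaves (cells N d i) : ℝ) ≤ η * N ^ (2 * i)) →
        (∀ A, A ∈ F ↔ R (f A) (fun j => 0 < h j A) (fun j => (φ j).eval A) (poly D c A)) →
        δ * (2 : ℝ) ^ (N ^ d) ≤ F.card →
          ((F \ S).card : ℝ) ≤ η * (2 : ℝ) ^ (N ^ d) → Good S := by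
  intro d hd D k G _ _ δ hδ
  obtain ⟨η, hη, N₀, hN₀⟩ := Pool.Agent.X79.HJ.main d hd D k G δ hδ
  refine ⟨η, hη, N₀, fun N hN τ f s h t φ c R F S hf hs hh hφ hF hFc hFS => ?_⟩
  refine hN₀ N hN τ f s h t (fun j A => (φ j).eval A) (fun j i => (φ j).leaves (cells N d i)) c R F S
    hf hs (fun j => ?_) (fun j i _ _ => khr (cells N d i) (φ j)) hφ hF hFc hFS
  obtain ⟨l, h1, h2, h3⟩ := hh j
  exact ⟨l, h1, h2, reg_of_constSign l (h j) h3⟩

end Pool.Agent.Results.MP_90b327_co.LowSensitivity
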