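import Mathlib
import Pool.Agent.X79.HJ.RelFin
import Pool.Agent.TH635.PH.Thr
import Pool.Agent.TH635.BV.Thr2

set_option autoImplicit false

namespace Pool.Agent.Results.MP_90b327_co.LowSensitivityDensity

open Finset

/-- `cube d γ` is `γ^d`, the set of all `d`-tuples with entries in `γ`. -/
def cube {N : ℕ} (d : ℕ) (γ : Finset (Fin N)) : Finset (Fin d → Fin N) :=
  Fintype.piFinset (fun _ : Fin d => γ)

/-- A family `S` of subsets of `[N]^d` is good if there are `A ∈ S` and a nonempty `γ ⊆ [N]` with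
`A ∩ γ^d = ∅` and `A ∪ γ^d ∈ S`. -/
def Good {N d : ℕ} (S : Finset (Finset (Fin d → Fin N))) : Prop :=
  ∃ A ∈ S, ∃ γ : Finset (Fin N), γ.Nonempty ∧ Disjoint A (cube d γ) ∧ A ∪ cube d γ ∈ S

/-- The cells of `[N]^d` with exactly `i` different coordinates. -/
def cells (N d i : ℕ) : Finset (Fin d → Fin N) :=
  univ.filter (fun x : Fin d → Fin N => (univ.image x).card = i)

open Classical in
/-- The influence of `x` on `f`: the number of sets `A` not containing `x` for which `f A` and
`f (A ∪ {x})` are different. -/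
noncomputable def influence {E τ : Type} [Fintype E] [DecidableEq E] (f : Finset E → τ) (x : E) :
    ℕ := (univ.filter (fun A : Finset E => x ∉ A ∧ f A ≠ f (insert x A))).card

/-- The polynomial of degree at most `D` with coefficients `c` and values in the abelian group `G`:
`A ↦ ∑ c T`, the sum over all subsets `T ⊆ A` with at most `D` elements. -/
def poly {E G : Type} [AddCommGroup G] (D : ℕ) (c : Finset E → G) (A : Finset E) : G :=
  ∑ T ∈ A.powerset.filter (fun T => T.card ≤ D), c T

/-- The difference of `h` in direction `e`: `A ↦ h (A ∪ {e}) - h (A \ {e})`. -/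
def diff {E : Type} [DecidableEq E] (e : E) (h : Finset E → ℝ) (A : Finset E) : ℝ :=
  h (insert e A) - h (A.erase e)

/-- All differences of order `k` of `h` have constant sign: for all `e₁, …, e_k` the function
`diff e₁ (… (diff e_k h))` is nowhere negative or nowhere positive (which of the two may depend on
`e₁, …, e_k`). -/
def ConstSign {E : Type} [DecidableEq E] : ℕ → (Finset E → ℝ) → Prop
  | 0, h => (∀ A, 0 ≤ h A) ∨ (∀ A, h A ≤ 0)
  | k + 1, h => ∀ e, ConstSign k (diff e h)

/-- De Morgan formulas; their leaves are constants and literals. -/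
inductive Formula (E : Type) where
  | const (b : Prop) : Formula E
  | pos (e : E) : Formula E
  | neg (e : E) : Formula E
  | and (φ ψ : Formula E) : Formula E
  | or (φ ψ : Formula E) : Formula E

/-- The truth value of a formula at the set `A`: `pos e` says `e ∈ A` and `neg e` says `e ∉ A`. -/
def Formula.eval {E : Type} (A : Finset E) : Formula E → Prop
  | .const b => b
  | .pos e => e ∈ A
  | .neg e => e ∉ A
  | .and φ ψ => φ.eval A ∧ ψ.eval A
  | .or φ ψ => φ.eval A ∨ ψ.eval A

/-- The number of leaves of a formula which are literals with an element of `K`. -/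
def Formula.leaves {E : Type} [DecidableEq E] (K : Finset E) : Formula E → ℕ
  | .const _ => 0
  | .pos e => if e ∈ K then 1 else 0
  | .neg e => if e ∈ K then 1 else 0
  | .and φ ψ => φ.leaves K + ψ.leaves K
  | .or φ ψ => φ.leaves K + ψ.leaves K

/-- `F` is a simple family of subsets of `[N]^d`, of complexity `(η, D, k, G)`: it is
`{A : R (f A) (0 < h₁ A, …, 0 < h_s A) (φ₁ A, …, φ_t A) (q A)}` for some condition `R`, where
* `f` is a function with values in any type for which, for each `i` with `1 ≤ i ≤ d`, the influences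
  of the cells with `i` different coordinates add up to at most `η N^i 2^(N^d)`;
* the `h_j` are real functions, each with all differences of some order between `1` and `k` of
  constant sign, and `s^(2^k) ≤ η N` for their number `s`;
* the `φ_j` are De Morgan formulas, each with at most `η N^(2i) / t²` leaves which are literals with
  a cell with `i` different coordinates, for each `i` with `1 ≤ i ≤ d`;
* `q` is a polynomial of degree at most `D` with values in `G` whose coefficient `c T` is zero unless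
  any two cells in `T` have a common coordinate. -/
def Simple (η : ℝ) (D k : ℕ) (G : Type) [AddCommGroup G] {d N : ℕ}
    (F : Finset (Finset (Fin d → Fin N))) : Prop :=
  ∃ (τ : Type) (f : Finset (Fin d → Fin N) → τ)
    (s : ℕ) (h : Fin s → Finset (Fin d → Fin N) → ℝ)
    (t : ℕ) (φ : Fin t → Formula (Fin d → Fin N))
    (c : Finset (Fin d → Fin N) → G)
    (R : τ → (Fin s → Prop) → (Fin t → Prop) → G → Prop),
    (∀ i, 1 ≤ i → i ≤ d →
      ∑ x ∈ cells N d i, (influence f x : ℝ) ≤ η * N ^ i * (2 : ℝ) ^ (N ^ d)) ∧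
    (s : ℝ) ^ (2 ^ k) ≤ η * N ∧ (∀ j, ∃ l, 1 ≤ l ∧ l ≤ k ∧ ConstSign l (h j)) ∧
    (∀ j i, 1 ≤ i → i ≤ d →
      (t : ℝ) ^ 2 * ((φ j).leaves (cells N d i) : ℝ) ≤ η * N ^ (2 * i)) ∧
    (∀ T, c T ≠ 0 → ∀ x ∈ T, ∀ y ∈ T, ∃ i j, x i = y j) ∧
    ∀ A, A ∈ F ↔ R (f A) (fun j => 0 < h j A) (fun j => (φ j).eval A) (poly D c A)

/-- `0.3223` for `d = 2`, and `(2^(d-1) - 1)/(2^d - 1)` for the other `d`. -/
noncomputable def threshold (d : ℕ) : ℝ :=
  if d = 2 then 3223 / 10000 else ((2 : ℝ) ^ (d - 1) - 1) / (2 ^ d - 1)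

lemma reg_of_constSign {E : Type} [DecidableEq E] (k : ℕ) : ∀ h : Finset E → ℝ, ConstSign k h →
    Pool.Agent.TH484.PH.Reg k h := by
  induction k with
  | zero => exact fun h hh => hh
  | succ k ih => exact fun h hh e => ih _ (hh e)

lemma khr {E : Type} [Fintype E] [DecidableEq E] (K : Finset E) (φ : Formula E) :
    Pool.Agent.X79.HJ.Khr K (φ.leaves K) (fun A => φ.eval A) := by
  induction φ with
  | const b => exact Pool.Agent.X79.HJ.Khr.const K b
  | pos e =>
    simp only [Formula.leaves, Formula.eval]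
    split_ifs with h
    · exact Pool.Agent.X79.HJ.Khr.lit
    · exact Pool.Agent.X79.HJ.Khr.lit_out h
  | neg e =>
    simp only [Formula.leaves, Formula.eval]
    split_ifs with h
    · exact Pool.Agent.X79.HJ.Khr.lit.not
    · exact (Pool.Agent.X79.HJ.Khr.lit_out h).not
  | and φ ψ h1 h2 => exact h1.and h2
  | or φ ψ h1 h2 => exact h1.or h2

lemma structLS_of_simple {η : ℝ} {D k : ℕ} {G : Type} [AddCommGroup G] {d N : ℕ}
    {F : Finset (Finset (Fin d → Fin N))} (hF : Simple η D k G F) :
    Pool.Agent.X79.HJ.StructLS η D k G F := by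
  obtain ⟨τ, f, s, h, t, φ, c, R, h1, h2, h3, h4, h5, h6⟩ := hF
  refine ⟨⟨τ, f, s, h, t, fun j A => (φ j).eval A, fun j i => (φ j).leaves (cells N d i), h1, h2,
    fun j => ?_, fun j i _ _ => khr (cells N d i) (φ j), h4⟩, c,
    fun z g => R z.1 z.2.1 z.2.2 g, h5, h6⟩
  obtain ⟨l, h7, h8, h9⟩ := h3 j
  exact ⟨l, h7, h8, reg_of_constSign l (h j) h9⟩

/-- For every `d ≥ 1` there is a critical density `θ_d`, at most `threshold d`, with the following
two properties for all `D`, `k` and finite abelian groups `G`.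
(1) For all `θ > θ_d` and `δ > 0` there are `η > 0` and `N₀` such that for `N ≥ N₀`: if `F` is a
simple family of complexity `(η, D, k, G)` with at least `δ 2^(N^d)` elements, then every family `S`
which contains at least the proportion `θ` of `F` is good.
(2) For all `ε > 0` there are `η > 0` and `N₀` such that for `N ≥ N₀` some family `S` of subsets of
`[N]^d` is not good and is uniform with density `θ_d` with respect to the simple families: for every
simple family `F` of complexity `(η, D, k, G)` (for example the family of all sets) the numbers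
`|F ∩ S|` and `θ_d |F|` differ by at most `ε 2^(N^d)`. -/
theorem result : ∀ d : ℕ, 1 ≤ d → ∃ θd : ℝ, 0 ≤ θd ∧ θd ≤ threshold d ∧
    ∀ (D k : ℕ) (G : Type) [AddCommGroup G] [Finite G],
      (∀ θ δ : ℝ, θd < θ → 0 < δ → ∃ η : ℝ, 0 < η ∧ ∃ N₀ : ℕ, ∀ N : ℕ, N₀ ≤ N →
        ∀ F S : Finset (Finset (Fin d → Fin N)), Simple η D k G F →
          δ * (2 : ℝ) ^ (N ^ d) ≤ F.card → θ * F.card ≤ (F ∩ S).card → Good S) ∧
      (∀ ε : ℝ, 0 < ε → ∃ η : ℝ, 0 < η ∧ ∃ N₀ : ℕ, ∀ N : ℕ, N₀ ≤ N →
        ∃ S : Finset (Finset (Fin d → Fin N)), ¬ Good S ∧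
          ∀ F : Finset (Finset (Fin d → Fin N)), Simple η D k G F →
            |((F ∩ S).card : ℝ) - θd * F.card| ≤ ε * (2 : ℝ) ^ (N ^ d)) := by
  intro d hd
  have ht0 : 0 ≤ threshold d := by
    unfold threshold
    split_ifs with h
    · norm_num
    · refine div_nonneg ?_ ?_
      · have : (1 : ℝ) ≤ 2 ^ (d - 1) := one_le_pow₀ (by norm_num)
        linarith
      · have : (1 : ℝ) ≤ 2 ^ d := one_le_pow₀ (by norm_num)
        linarith
  have hvec : ∀ δ : ℝ, threshold d < δ → ∃ N₀ : ℕ, ∀ N : ℕ, N₀ ≤ N →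
      ∀ S : Finset (Finset (Fin d → Fin N)), δ * (2 : ℝ) ^ (N ^ d) < S.card → Good S := by
    intro δ hδ
    unfold threshold at hδ
    by_cases h : d = 2
    · subst h
      rw [if_pos rfl] at hδ
      exact Pool.Agent.TH635.BV.thr2 δ hδ
    · rw [if_neg h] at hδ
      exact Pool.Agent.TH635.PH.Thr.thr d hd δ hδ
  obtain ⟨θd, h0, h1, h2⟩ := Pool.Agent.X79.HJ.critLS d hd (threshold d) ht0 hvec
  refine ⟨θd, h0, h1, fun D k G _ _ => ?_⟩
  obtain ⟨h3, h4⟩ := h2 D k G
  refine ⟨fun θ δ hθ hδ => ?_, fun ε hε => ?_⟩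
  · obtain ⟨η, hη, N₀, hN₀⟩ := h3 θ δ hθ hδ
    exact ⟨η, hη, N₀, fun N hN F S hF => hN₀ N hN F S (structLS_of_simple hF)⟩
  · obtain ⟨η, hη, N₀, hN₀⟩ := h4 ε hε
    refine ⟨η, hη, N₀, fun N hN => ?_⟩
    obtain ⟨S, hS, hF⟩ := hN₀ N hN
    exact ⟨S, hS, fun F hF' => hF F (structLS_of_simple hF')⟩

end Pool.Agent.Results.MP_90b327_co.LowSensitivityDensity
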