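import Pool.Agent.X79.RF.PH2
import Pool.Agent.TH635.PH.Thr
import Pool.Agent.TH635.BV.Thr2

set_option autoImplicit false

/-!
# The restricted density polynomial Hales-Jewett conjecture inside sparse families

A family of subsets of `[N]^d` that is not good has relative density at most `θ + o(1)` inside every
family `F` (however sparse) with few boundary edges near the diagonal, where `θ` is any density above
which the conjecture holds; this applies to the families whose indicator function has low degree in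
a weighted sense. The same holds, up to a small additive error, inside the families decided by
formulas with few leaves.

Proof. If `F` has few boundary edges, then for a random set of `m` of the `N` indices only few
members of `F` can leave `F` when they are changed in the `m ^ d` cells of this set of indices. A
formula is restricted to the cells of `N / m` disjoint random sets of indices; most restrictions of
it have low degree.
-/

namespace Pool.Agent.Results.MP_90b327_co.RelativeFormulas

open Finset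

/-- The family `S` of subsets of `[N]^d` is good: there are `A ∈ S` and a nonempty `γ ⊆ [N]` with
`A ∩ γ^d = ∅` and `A ∪ γ^d ∈ S`. -/
def Good {N d : ℕ} (S : Finset (Finset (Fin d → Fin N))) : Prop :=
  ∃ A ∈ S, ∃ γ : Finset (Fin N), γ.Nonempty ∧
    Disjoint A (Fintype.piFinset (fun _ : Fin d => γ)) ∧
    A ∪ Fintype.piFinset (fun _ : Fin d => γ) ∈ S

/-- The cells of `[N]^d` with exactly `i` different coordinates. -/
def cells (N d i : ℕ) : Finset (Fin d → Fin N) :=
  univ.filter (fun x : Fin d → Fin N => (univ.image x).card = i)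

/-- The number of pairs `(A, x)` with `A ∈ F` and a cell `x` with `i` different coordinates, for
which changing `A` in the cell `x` gives a set outside `F`. -/
def boundary {N d : ℕ} (i : ℕ) (F : Finset (Finset (Fin d → Fin N))) : ℕ :=
  ∑ x ∈ cells N d i, (F.filter fun A => symmDiff A {x} ∉ F).card

/-- The indicator function of `F` is a sum of real functions `g T`, where `g T A` depends only on
`A ∩ T`, and `T` runs over some sets which contain at most `t i` cells with `i` different
coordinates, for all `i`, `1 ≤ i ≤ d`. -/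
def LowDegree {N d : ℕ} (t : ℕ → ℕ) (F : Finset (Finset (Fin d → Fin N))) : Prop :=
  ∃ (P : Finset (Finset (Fin d → Fin N)))
    (g : Finset (Fin d → Fin N) → Finset (Fin d → Fin N) → ℝ),
    (∀ T ∈ P, ∀ i ∈ Icc 1 d, (T ∩ cells N d i).card ≤ t i) ∧
    (∀ T A A', A ∩ T = A' ∩ T → g T A = g T A') ∧
    ∀ A, (if A ∈ F then (1 : ℝ) else 0) = ∑ T ∈ P, g T A

/-- De Morgan formulas; their leaves are constants and literals. -/
inductive Formula (E : Type) where
  | const (b : Prop) : Formula E
  | pos (e : E) : Formula E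
  | neg (e : E) : Formula E
  | and (φ ψ : Formula E) : Formula E
  | or (φ ψ : Formula E) : Formula E

/-- The truth value of a formula at the set `A`: `pos e` says `e ∈ A` and `neg e` says `e ∉ A`. -/
def Formula.eval {E : Type} (A : Finset E) : Formula E → Prop
  | .const b => b
  | .pos e => e ∈ A
  | .neg e => e ∉ A
  | .and φ ψ => φ.eval A ∧ ψ.eval A
  | .or φ ψ => φ.eval A ∨ ψ.eval A

/-- The number of leaves of a formula which are literals with an element of `K`. -/
def Formula.leaves {E : Type} [DecidableEq E] (K : Finset E) : Formula E → ℕ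
  | .const _ => 0
  | .pos e => if e ∈ K then 1 else 0
  | .neg e => if e ∈ K then 1 else 0
  | .and φ ψ => φ.leaves K + ψ.leaves K
  | .or φ ψ => φ.leaves K + ψ.leaves K

/-- The weighted number of leaves: a leaf with a cell that has `i` different coordinates counts
`N^(-i)`. -/
noncomputable def weight {N d : ℕ} (φ : Formula (Fin d → Fin N)) : ℝ :=
  ∑ i ∈ Icc 1 d, (φ.leaves (cells N d i) : ℝ) / (N : ℝ) ^ i

/-- The conjecture holds in dimension `d` for all densities above `θ`; `Q1` is the statement that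
`Above d 0` holds for all `d ≥ 1`. -/
def Above (d : ℕ) (θ : ℝ) : Prop :=
  ∀ δ : ℝ, θ < δ → ∃ N : ℕ, 1 ≤ N ∧ ∀ S : Finset (Finset (Fin d → Fin N)),
    δ * (2 : ℝ) ^ (N ^ d) < S.card → Good S

/-- The relative form with density `θ`. -/
def Relative (d : ℕ) (θ : ℝ) : Prop :=
  ∃ c : ℝ, 0 < c ∧ ∃ N₀ : ℕ, ∀ N : ℕ, N₀ ≤ N → ∀ F S : Finset (Finset (Fin d → Fin N)), ¬ Good S →
    ((∀ i ∈ Icc 1 d, (boundary i F : ℝ) ≤ c * (N : ℝ) ^ i * F.card) →
      ((S ∩ F).card : ℝ) ≤ θ * F.card) ∧
    ∀ φ : Formula (Fin d → Fin N), (∀ A, A ∈ F ↔ φ.eval A) →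
      ((S ∩ F).card : ℝ) ≤ θ * F.card +
        2 * 2 ^ (N ^ d) * Real.exp (-(c * N / (1 + weight φ)))

/-- `0.3223` for `d = 2`, and `(2^(d-1) - 1)/(2^d - 1)` for the other `d` (`0` for `d = 1`). -/
noncomputable def threshold (d : ℕ) : ℝ :=
  if d = 2 then 3223 / 10000 else ((2 : ℝ) ^ (d - 1) - 1) / (2 ^ d - 1)

open Pool.Agent.H564R2.QF Pool.Agent.X79.RF
open Pool.Agent.TH484.PH (GoodF)

open Classical in
/-- the formula of the library -/
noncomputable def Formula.conv {E : Type} : Formula E → Fml E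
  | .const b => .const (decide b)
  | .pos e => .var e
  | .neg e => .neg (.var e)
  | .and φ ψ => .and φ.conv ψ.conv
  | .or φ ψ => .or φ.conv ψ.conv

lemma conv_eval {E : Type} [Fintype E] [DecidableEq E] (A : Finset E) (φ : Formula E) :
    φ.conv.eval (toS.symm A) = true ↔ φ.eval A := by
  induction φ with
  | const b => simp [Formula.conv, Formula.eval, Fml.eval]
  | pos e => simp [Formula.conv, Formula.eval, Fml.eval, toS_symm]
  | neg e => simp [Formula.conv, Formula.eval, Fml.eval, toS_symm]
  | and φ ψ h1 h2 => simp [Formula.conv, Formula.eval, Fml.eval, h1, h2]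
  | or φ ψ h1 h2 => simp [Formula.conv, Formula.eval, Fml.eval, h1, h2]

lemma conv_occ {N d : ℕ} (φ : Formula (Fin d → Fin N)) (x : Fin d → Fin N) :
    occ φ.conv x = φ.leaves {x} := by
  unfold occ
  induction φ with
  | const b => rfl
  | pos e => simp [Formula.conv, Formula.leaves, lvs]
  | neg e => simp [Formula.conv, Formula.leaves, lvs]
  | and φ ψ h1 h2 => simp only [Formula.conv, Formula.leaves, lvs, h1, h2]
  | or φ ψ h1 h2 => simp only [Formula.conv, Formula.leaves, lvs, h1, h2]

lemma leaves_sum {E : Type} [DecidableEq E] (K : Finset E) (φ : Formula E) :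
    φ.leaves K = ∑ x ∈ K, φ.leaves {x} := by
  induction φ with
  | const b => simp [Formula.leaves]
  | pos e => simp [Formula.leaves]
  | neg e => simp [Formula.leaves]
  | and φ ψ h1 h2 => simp only [Formula.leaves, h1, h2, sum_add_distrib]
  | or φ ψ h1 h2 => simp only [Formula.leaves, h1, h2, sum_add_distrib]

/-- sums over all cells -/
lemma sum_classes {N d : ℕ} (hd : 1 ≤ d) (w : (Fin d → Fin N) → ℝ) :
    ∑ x : Fin d → Fin N, w x * (1 / (N : ℝ) ^ (univ.image x).card) =
      ∑ i ∈ Icc 1 d, (∑ x ∈ cells N d i, w x) / (N : ℝ) ^ i := by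
  rw [← sum_fiberwise_of_maps_to (s := (univ : Finset (Fin d → Fin N))) (t := Icc 1 d)
    (g := fun x : Fin d → Fin N => (univ.image x).card)]
  · refine sum_congr rfl fun i _ => ?_
    unfold cells
    rw [sum_div]
    refine sum_congr rfl fun x hx => ?_
    rw [(mem_filter.1 hx).2, mul_one_div]
  · intro x _
    rw [mem_Icc]
    refine ⟨?_, card_image_le.trans (by simp)⟩
    exact card_pos.2 ⟨x ⟨0, hd⟩, mem_image_of_mem _ (mem_univ _)⟩

lemma good_iff {N d : ℕ} (S : Finset (Finset (Fin d → Fin N))) : Good S ↔ GoodF S := Iff.rfl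

/-- **Theorem.** Let `d ≥ 1`.
(1) Let `1 ≤ m ≤ N`, `2 d ≤ N`, and suppose that families of subsets of `[m]^d` which are not good
have at most `r` members. If `F` has at most `t i |F|` boundary edges in cells with `i` different
coordinates, `1 ≤ i ≤ d`, and `S` is not good, then
`|S ∩ F| ≤ (r / 2^(m^d) + 2^(m^d) (2 m)^d ∑ t i / N^i) |F|`.
(2) If the indicator function of `F` has degree at most `t i` in the cells with `i` different
coordinates, the assumption on `F` in (1) holds with `2 t i`.
(3) With `m` and `r` as in (1), for every `δ > 0` there is `c > 0` such that for all `N`, all formulas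
`φ`, the family `F` decided by `φ` and all families `S` that are not good
`|S ∩ F| ≤ (r / 2^(m^d) + δ) |F| + 2 2^(N^d) exp (- c N / (1 + weight φ))`.
(4) If the conjecture holds in dimension `d` for all densities above `θ`, then its relative form
holds for all densities `θ' > θ`: for some `c > 0` and all large `N` families `S` that are not good
have relative density at most `θ'` in every family `F` with at most `c N^i |F|` boundary edges in the
cells with `i` different coordinates for `i = 1, …, d`, and up to the error term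
`2 2^(N^d) exp (- c N / (1 + weight φ))` in the families decided by formulas.
(5) The relative form holds for all densities above `threshold d`. -/
theorem result (d : ℕ) (hd : 1 ≤ d) :
    (∀ N m r : ℕ, 1 ≤ m → m ≤ N → 2 * d ≤ N →
      (∀ B : Finset (Finset (Fin d → Fin m)), ¬ Good B → B.card ≤ r) →
      ∀ (t : ℕ → ℝ) (F S : Finset (Finset (Fin d → Fin N))),
        (∀ i ∈ Icc 1 d, (boundary i F : ℝ) ≤ t i * F.card) → ¬ Good S →
        ((S ∩ F).card : ℝ) ≤ (r / 2 ^ (m ^ d) +
          2 ^ (m ^ d) * (2 * m) ^ d * ∑ i ∈ Icc 1 d, t i / (N : ℝ) ^ i) * F.card) ∧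
    (∀ (N : ℕ) (t : ℕ → ℕ) (F : Finset (Finset (Fin d → Fin N))), LowDegree t F →
      ∀ i ∈ Icc 1 d, (boundary i F : ℝ) ≤ 2 * t i * F.card) ∧
    (∀ m r : ℕ, 1 ≤ m → (∀ B : Finset (Finset (Fin d → Fin m)), ¬ Good B → B.card ≤ r) →
      ∀ δ : ℝ, 0 < δ → ∃ c : ℝ, 0 < c ∧ ∀ (N : ℕ) (φ : Formula (Fin d → Fin N))
        (F S : Finset (Finset (Fin d → Fin N))), ¬ Good S → (∀ A, A ∈ F ↔ φ.eval A) →
        ((S ∩ F).card : ℝ) ≤ (r / 2 ^ (m ^ d) + δ) * F.card +
          2 * 2 ^ (N ^ d) * Real.exp (-(c * N / (1 + weight φ)))) ∧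
    (∀ θ θ' : ℝ, 0 ≤ θ → θ < θ' → Above d θ → Relative d θ') ∧
    (∀ θ' : ℝ, threshold d < θ' → Relative d θ') := by
  have h1 : ∀ N m r : ℕ, 1 ≤ m → m ≤ N → 2 * d ≤ N →
      (∀ B : Finset (Finset (Fin d → Fin m)), ¬ Good B → B.card ≤ r) →
      ∀ (t : ℕ → ℝ) (F S : Finset (Finset (Fin d → Fin N))),
        (∀ i ∈ Icc 1 d, (boundary i F : ℝ) ≤ t i * F.card) → ¬ Good S →
        ((S ∩ F).card : ℝ) ≤ (r / 2 ^ (m ^ d) +
          2 ^ (m ^ d) * (2 * m) ^ d * ∑ i ∈ Icc 1 d, t i / (N : ℝ) ^ i) * F.card := by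
    intro N m r hm hmN hN hr t F S hF hS
    have e1 := rel_boundary hd hm hmN hN F S hS hr
    rw [sum_classes hd] at e1
    have e2 : ∑ i ∈ Icc 1 d, (∑ x ∈ cells N d i, (bdy F x : ℝ)) / (N : ℝ) ^ i ≤
        (∑ i ∈ Icc 1 d, t i / (N : ℝ) ^ i) * F.card := by
      rw [sum_mul]
      refine sum_le_sum fun i hi => ?_
      have e3 : ∑ x ∈ cells N d i, (bdy F x : ℝ) ≤ t i * F.card := by
        have := hF i hi
        unfold boundary at this
        push_cast at this
        exact this
      calc (∑ x ∈ cells N d i, (bdy F x : ℝ)) / (N : ℝ) ^ i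
          ≤ t i * F.card / (N : ℝ) ^ i := div_le_div_of_nonneg_right e3 (by positivity)
        _ = t i / (N : ℝ) ^ i * F.card := by ring
    have e4 : (0 : ℝ) ≤ 2 ^ (m ^ d) * (2 * m) ^ d := by positivity
    have e5 := mul_le_mul_of_nonneg_left e2 e4
    linarith
  have h3 : ∀ m r : ℕ, 1 ≤ m → (∀ B : Finset (Finset (Fin d → Fin m)), ¬ Good B → B.card ≤ r) →
      ∀ δ : ℝ, 0 < δ → ∃ c : ℝ, 0 < c ∧ ∀ (N : ℕ) (φ : Formula (Fin d → Fin N))
        (F S : Finset (Finset (Fin d → Fin N))), ¬ Good S → (∀ A, A ∈ F ↔ φ.eval A) →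
        ((S ∩ F).card : ℝ) ≤ (r / 2 ^ (m ^ d) + δ) * F.card +
          2 * 2 ^ (N ^ d) * Real.exp (-(c * N / (1 + weight φ))) := by
    intro m r hm hr δ hδ
    obtain ⟨c, hc, h⟩ := rel_form hd hm hr hδ
    refine ⟨c, hc, fun N φ F S hS hF => ?_⟩
    have e1 := h N φ.conv F S hS (fun A => by rw [hF, conv_eval])
    rw [sum_classes hd] at e1
    have e2 : ∑ i ∈ Icc 1 d, (∑ x ∈ cells N d i, (occ φ.conv x : ℝ)) / (N : ℝ) ^ i =
        weight φ := by
      unfold weight
      refine sum_congr rfl fun i _ => ?_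
      rw [leaves_sum]
      push_cast
      simp only [conv_occ]
    rw [e2] at e1
    exact e1
  have h4 : ∀ θ θ' : ℝ, 0 ≤ θ → θ < θ' → Above d θ → Relative d θ' := by
    intro θ θ' hθ0 hθ hab
    obtain ⟨m, hm, hmS⟩ := hab ((θ + θ') / 2) (by linarith)
    set δ : ℝ := (θ + θ') / 2 with hδ
    have hδ0 : 0 < δ := by linarith
    set r : ℕ := ⌊δ * (2 : ℝ) ^ (m ^ d)⌋₊ with hr
    have hrr : (r : ℝ) ≤ δ * 2 ^ (m ^ d) := Nat.floor_le (by positivity)
    have hrB : ∀ B : Finset (Finset (Fin d → Fin m)), ¬ Good B → B.card ≤ r := by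
      intro B hB
      apply Nat.le_floor
      by_contra h
      exact hB (hmS B (not_le.1 h))
    have hrd : (r : ℝ) / 2 ^ (m ^ d) ≤ δ := by
      rw [div_le_iff₀ (by positivity)]
      exact hrr
    obtain ⟨c, hc, h⟩ := h3 m r hm hrB (θ' - δ) (by linarith)
    have hmr : (1 : ℝ) ≤ m := by exact_mod_cast hm
    have hdr : (1 : ℝ) ≤ d := by exact_mod_cast hd
    set C : ℝ := 2 ^ (m ^ d) * (2 * m) ^ d with hC
    have hC0 : 0 < C := by positivity
    have hdd : 0 < θ' - δ := by linarith
    refine ⟨min c ((θ' - δ) / (C * d)), by positivity, max m (2 * d), fun N hN F S hS => ⟨?_, ?_⟩⟩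
    · intro hF
      have hmN : m ≤ N := (le_max_left _ _).trans hN
      have hdN : 2 * d ≤ N := (le_max_right _ _).trans hN
      have hNr : (0 : ℝ) < N := by exact_mod_cast (by omega : 0 < N)
      refine (h1 N m r hm hmN hdN hrB (fun i => min c ((θ' - δ) / (C * d)) * (N : ℝ) ^ i) F S
        hF hS).trans ?_
      refine mul_le_mul_of_nonneg_right ?_ (Nat.cast_nonneg _)
      have e1 : ∑ i ∈ Icc 1 d, min c ((θ' - δ) / (C * d)) * (N : ℝ) ^ i / (N : ℝ) ^ i =
          d * min c ((θ' - δ) / (C * d)) := by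
        rw [sum_congr rfl fun i _ => mul_div_cancel_right₀ _ (pow_ne_zero i hNr.ne'), sum_const,
          Nat.card_Icc, nsmul_eq_mul]
        simp
      rw [e1, ← hC]
      have e2 : C * (d * min c ((θ' - δ) / (C * d))) ≤ C * (d * ((θ' - δ) / (C * d))) := by
        gcongr
        exact min_le_right _ _
      have e3 : C * (d * ((θ' - δ) / (C * d))) = θ' - δ := by field_simp
      linarith
    · intro φ hφ
      refine (h N φ F S hS hφ).trans ?_
      have hw : 0 ≤ weight φ := by
        unfold weight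
        positivity
      have e1 : (r / 2 ^ (m ^ d) + (θ' - δ)) * (F.card : ℝ) ≤ θ' * F.card :=
        mul_le_mul_of_nonneg_right (by linarith) (Nat.cast_nonneg _)
      have e2 : Real.exp (-(c * N / (1 + weight φ))) ≤
          Real.exp (-(min c ((θ' - δ) / (C * d)) * N / (1 + weight φ))) := by
        apply Real.exp_le_exp.2
        rw [neg_le_neg_iff]
        refine div_le_div_of_nonneg_right ?_ (by linarith)
        exact mul_le_mul_of_nonneg_right (min_le_left _ _) (Nat.cast_nonneg _)
      have e3 := mul_le_mul_of_nonneg_left e2 (by positivity : (0 : ℝ) ≤ 2 * 2 ^ (N ^ d))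
      linarith
  refine ⟨h1, ?_, h3, h4, ?_⟩
  · rintro N t F ⟨P, g, hP, hg, hF⟩ i hi
    have e1 : ∑ x ∈ cells N d i, (bdy F x : ℝ) ≤ 2 * t i * F.card :=
      bdy_degree F (cells N d i) (t i) P g (fun T hT => hP T hT i hi) hg hF
    unfold boundary
    push_cast
    exact e1
  · intro θ' hθ'
    have h0 : 0 ≤ threshold d := by
      unfold threshold
      split_ifs
      · norm_num
      · have e1 : (1 : ℝ) ≤ 2 ^ (d - 1) := one_le_pow₀ (by norm_num)
        have e2 : (1 : ℝ) < 2 ^ d := one_lt_pow₀ (by norm_num) (by omega)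
        exact div_nonneg (by linarith) (by linarith)
    refine h4 (threshold d) θ' h0 hθ' ?_
    intro δ hδ
    have key : ∃ N₀ : ℕ, ∀ N : ℕ, N₀ ≤ N → ∀ S : Finset (Finset (Fin d → Fin N)),
        δ * (2 : ℝ) ^ (N ^ d) < S.card → Good S := by
      unfold threshold at hδ
      by_cases h2 : d = 2
      · subst h2
        rw [if_pos rfl] at hδ
        exact Pool.Agent.TH635.BV.thr2 δ hδ
      · rw [if_neg h2] at hδ
        exact Pool.Agent.TH635.PH.Thr.thr d hd δ hδ
    obtain ⟨N₀, hN₀⟩ := key
    exact ⟨N₀ + 1, by omega, hN₀ (N₀ + 1) (by omega)⟩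

end Pool.Agent.Results.MP_90b327_co.RelativeFormulas
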